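import Pool.Agent.TH979.Rot.Fin

/-!
# Rotation symmetric bent cubic forms

If there is a homogeneous rotation symmetric bent function of degree `3` in `n` variables, then `16`
divides `n`.

Proof. Let `n = 2 m`. The form `f` vanishes on the subspace `U` of the vectors of period `m`, as the
rotation by `m` acts freely on the monomials. As `f` is bent and the dimension of `U` is `n / 2`, the
function `f` is balanced on all other cosets of `U`, in particular on the coset `X` of the vectors with
`x (i + m) = x i + 1`. As the third derivatives of `f` in directions of `U` vanish, `f` is quadratic on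
`X`, hence there is a vector `u` of `U` with `f (x + u) = f x + 1` on `X`. Write `n = N q` with `q` odd
and `N` a power of two. The sum `v` of the rotations of `u` by the multiples of `N` has the same
property, and it has period `N`. So `f` is not constant on the vectors of `X` with period `N`. But
it is if `N` is `2` or `4` (there is only one orbit), and if `N = 8` (there are two orbits, but the sums
of `x i * x (i + s) * x (i + t)` over `i` have the same parity for both).
-/

namespace Pool.Agent.Results.MP_b38f68_co.CubicForms

open Pool.Agent.TH979.Rot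

/-- **No rotation symmetric bent cubic forms in `n` variables unless `16` divides `n`.** -/
theorem result (n : ℕ) (f : (Fin n → ZMod 2) → ZMod 2) (hb : IsBent f) (hr : IsRotSym f)
    (h3 : DegreesIn {3} f) : 16 ∣ n := by
  obtain ⟨c, hc, hf⟩ := h3
  by_contra h16
  have hn0 : n ≠ 0 := by
    rintro rfl
    exact h16 (dvd_zero _)
  obtain ⟨k, rfl⟩ := Nat.exists_eq_succ_of_ne_zero hn0
  obtain ⟨t, ht⟩ := even_of_bent hb
  obtain ⟨h1, h2⟩ := transfer hb hr hf
  have h3 : ∃ M q, (M = 1 ∨ M = 2 ∨ M = 4) ∧ k + 1 = 2 * (M * (2 * q + 1)) := by
    rcases Nat.even_or_odd t with ⟨t1, h⟩ | ⟨q, h⟩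
    · rcases Nat.even_or_odd t1 with ⟨t2, h'⟩ | ⟨q, h'⟩
      · rcases Nat.even_or_odd t2 with ⟨t3, h''⟩ | ⟨q, h''⟩
        · exact absurd (by omega : 16 ∣ k + 1) h16
        · exact ⟨4, q, by simp, by omega⟩
      · exact ⟨2, q, by simp, by omega⟩
    · exact ⟨1, q, by simp, by omega⟩
  obtain ⟨M, q, hM, hq⟩ := h3
  exact cubic_zmod (n := k + 1) (c := c) (fun S hS => hc S hS) h1 h2 hM hq

end Pool.Agent.Results.MP_b38f68_co.CubicForms
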