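import Pool.Agent.TH979.Rot.Fin

/-!
# Rotation symmetric bent functions all of whose monomials have odd degree

There is no rotation symmetric bent function in `n` variables all of whose monomials have odd degree
if `n = 2 p ^ s` or `n = 4 p ^ s` for an odd prime `p`. In particular there is no homogeneous one of odd
degree.

Proof. Let `n = 2 m`. The function `f` vanishes on the subspace `U` of the vectors of period `m`, as
the rotation by `m` acts freely on the monomials. As `f` is bent and the dimension of `U` is `n / 2`, the
function `f` is balanced on all other cosets of `U`, in particular on the coset `X` of the vectors with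
`x (i + m) = x i + 1`. The rotations by the multiples of `N = n / p ^ s` form a group of order `p ^ s`
which acts on the `2 ^ (m - 1)` elements of `X` with `f x = e`, for `e = 0` and for `e = 1`. So there is
a fixed point in both sets. But all elements of `X` of period `N` are in the same orbit of the
rotations.
-/

namespace Pool.Agent.Results.MP_b38f68_co.OddDegrees

open Pool.Agent.TH979.Rot

/-- **No rotation symmetric bent functions with monomials of odd degree in `2 p ^ s` or `4 p ^ s`
variables.** -/
theorem result (n p s : ℕ) (hp : p.Prime) (hp2 : p ≠ 2) (hn : n = 2 * p ^ s ∨ n = 4 * p ^ s)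
    (f : (Fin n → ZMod 2) → ZMod 2) (hb : IsBent f) (hr : IsRotSym f) :
    ¬ DegreesIn {d | Odd d} f := by
  rintro ⟨c, hc, hf⟩
  have hpp : 0 < p ^ s := pow_pos hp.pos s
  have hn0 : n ≠ 0 := by omega
  obtain ⟨k, rfl⟩ := Nat.exists_eq_succ_of_ne_zero hn0
  obtain ⟨h1, h2⟩ := transfer hb hr hf
  rcases hn with hn | hn
  · exact odd_zmod (n := k + 1) (c := c) (fun S hS => hc S hS) h1 h2 (Or.inl rfl) hp hp2
      (s := s) (by omega)
  · exact odd_zmod (n := k + 1) (c := c) (fun S hS => hc S hS) h1 h2 (Or.inr rfl) hp hp2
      (s := s) (by omega)

end Pool.Agent.Results.MP_b38f68_co.OddDegrees
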